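import Pool.Agent.H67.AG.T4

/-!
ABSOLUTE GAP: ERC, from the data to the data with the density of the errors.
-/

set_option autoImplicit false

open MeasureTheory ProbabilityTheory Filter Topology Finset
open scoped Nat ENNReal

namespace Pool.Agent.H1.AG

open Pool.Agent.H67.AG

theorem pf_ERC (h : T_ER) : T_ERC := by
  intro c
  obtain ⟨e, em, e0, eint, elim⟩ := h c
  exact ⟨{ toCtx := c, e := e, em := em, e0 := e0, eint := eint, elim := elim }, rfl⟩

end Pool.Agent.H1.AG
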