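import Pool.Agent.H67.AG.T1

/-!
ABSOLUTE GAP: J2, marginals and symmetry of the relatively independent self-joining.
-/

set_option autoImplicit false

open MeasureTheory ProbabilityTheory Filter Topology Finset
open scoped Nat ENNReal

namespace Pool.Agent.H1.AG

open Pool.Agent.H67.AG

theorem rect_real {X : Type} [MeasurableSpace X] (ρ : Measure (X × X)) [IsFiniteMeasure ρ]
    (A B : Set X) (hA : MeasurableSet A) (hB : MeasurableSet B) :
    ∫ q, A.indicator (fun _ => (1 : ℝ)) q.1 * B.indicator (fun _ => (1 : ℝ)) q.2 ∂ρ =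
      ρ.real (A ×ˢ B) := by
  have h : (fun q : X × X => A.indicator (fun _ => (1 : ℝ)) q.1 *
      B.indicator (fun _ => (1 : ℝ)) q.2) =
      (A ×ˢ B).indicator (fun _ => (1 : ℝ)) := by
    funext q
    by_cases h1 : q.1 ∈ A <;> by_cases h2 : q.2 ∈ B <;> simp [Set.indicator, h1, h2]
  rw [h, integral_indicator (hA.prod hB)]
  simp

theorem ind_bd {X : Type} (A : Set X) : ∃ C : ℝ, ∀ x, |A.indicator (fun _ => (1 : ℝ)) x| ≤ C := by
  refine ⟨1, fun x => ?_⟩
  by_cases h : x ∈ A <;> simp [Set.indicator, h]

theorem pf_J2 (h : T_J1) : T_J2 := by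
  intro X _ _ μ _ Z
  have hp : IsProbabilityMeasure (JJ μ Z) := by
    unfold JJ
    infer_instance
  have hfst : MeasurePreserving Prod.fst (JJ μ Z) μ := by
    refine ⟨measurable_fst, ?_⟩
    have := Measure.fst_compProd μ (kap μ Z)
    exact this
  have hsw : MeasurePreserving Prod.swap (JJ μ Z) (JJ μ Z) := by
    refine ⟨measurable_swap, ?_⟩
    haveI : IsProbabilityMeasure ((JJ μ Z).map Prod.swap) :=
      Measure.isProbabilityMeasure_map measurable_swap.aemeasurable
    refine Measure.ext_prod ?_
    intro s t hs ht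
    rw [Measure.map_apply measurable_swap (hs.prod ht), Set.preimage_swap_prod]
    have e1 : (JJ μ Z).real (t ×ˢ s) = (JJ μ Z).real (s ×ˢ t) := by
      rw [← rect_real (JJ μ Z) t s ht hs, ← rect_real (JJ μ Z) s t hs ht,
        h X μ Z _ _ (measurable_const.indicator ht) (measurable_const.indicator hs)
          (ind_bd t) (ind_bd s),
        h X μ Z _ _ (measurable_const.indicator hs) (measurable_const.indicator ht)
          (ind_bd s) (ind_bd t)]
      exact integral_congr_ae (Filter.Eventually.of_forall fun x => mul_comm _ _)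
    rw [measureReal_def, measureReal_def] at e1
    exact (ENNReal.toReal_eq_toReal_iff' (measure_ne_top _ _) (measure_ne_top _ _)).1 e1
  refine ⟨hp, hfst, ?_, hsw⟩
  have : MeasurePreserving (Prod.fst ∘ Prod.swap : X × X → X) (JJ μ Z) μ := hfst.comp hsw
  exact this

end Pool.Agent.H1.AG
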